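import Mathlib

/-! # Sums of small points: boxes and the gap principle -/

set_option autoImplicit false

namespace Pool.Agent.K6.H90.SP

open Finset

variable {G : Type} [AddCommGroup G] {d : ℕ}

/-- the product is at least `ν` at the nonzero points -/
def Nu (L : G →+ (Fin d → ℝ)) (ν : ℝ) : Prop := ∀ p, p ≠ 0 → ν ≤ ∏ i, |L p i|

/-- small points -/
def Small (L : G →+ (Fin d → ℝ)) (Λ x : ℝ) (p : G) : Prop :=
  p ≠ 0 ∧ ∏ i, |L p i| ≤ Λ ∧ ∀ i, |L p i| ≤ Real.exp x

lemma Small.neg {L : G →+ (Fin d → ℝ)} {Λ x : ℝ} {p : G} (h : Small L Λ x p) :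
    Small L Λ x (-p) := by
  refine ⟨neg_ne_zero.2 h.1, ?_, fun i => ?_⟩
  · simpa [abs_neg] using h.2.1
  · simpa [abs_neg] using h.2.2 i

lemma Nu.pos {L : G →+ (Fin d → ℝ)} {ν : ℝ} (hν : 0 < ν) (h : Nu L ν) {p : G} (hp : p ≠ 0)
    (i : Fin d) : 0 < |L p i| := by
  rcases (abs_nonneg (L p i)).lt_or_eq with h1 | h1
  · exact h1
  · have := h p hp
    rw [prod_eq_zero (mem_univ i) h1.symm] at this
    linarith

/-- two real numbers with the same floor have distance less than one -/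
lemma abs_sub_lt_of_floor {a b : ℝ} (h : ⌊a⌋ = ⌊b⌋) : |a - b| < 1 := by
  exact Int.abs_sub_lt_one_of_floor_eq_floor h

/-- a real number of absolute value at most `K` has floor in `[-K, K]` -/
lemma floor_mem {a : ℝ} {K : ℕ} (h : |a| ≤ K) : ⌊a⌋ ∈ Finset.Icc (-(K : ℤ)) K := by
  obtain ⟨h1, h2⟩ := abs_le.1 h
  rw [Finset.mem_Icc]
  constructor
  · rw [Int.le_floor]
    push_cast
    exact h1
  · have : ⌊a⌋ ≤ ⌊(K : ℝ)⌋ := Int.floor_le_floor h2
    simpa using this

/-- **boxes of bounded volume contain boundedly many points** -/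
theorem box_card (hd : 0 < d) {ν B : ℝ} (hν : 0 < ν) :
    ∃ N : ℕ, ∀ (G : Type) [AddCommGroup G] (L : G →+ (Fin d → ℝ)), Nu L ν →
      ∀ y : Fin d → ℝ, (∀ i, 0 < y i) → ∏ i, y i ≤ B →
      ∀ T : Finset G, (∀ p ∈ T, ∀ i, |L p i| ≤ y i) → T.card ≤ N := by
  obtain ⟨K, hK⟩ := exists_nat_gt (max (B / ν) 1)
  have hK1 : (1 : ℝ) < K := (le_max_right _ _).trans_lt hK
  have hKB : B / ν < K := (le_max_left _ _).trans_lt hK
  have hK0 : (0 : ℝ) < K := by linarith
  refine ⟨(2 * K + 1) ^ d, fun G _ L hL y hy hyB T hT => ?_⟩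
  classical
  have h1 : T.card ≤ (Fintype.piFinset fun _ : Fin d => Finset.Icc (-(K : ℤ)) K).card := by
    refine Finset.card_le_card_of_injOn (fun p i => ⌊K * L p i / y i⌋) ?_ ?_
    · intro p hp
      rw [Finset.mem_coe, Fintype.mem_piFinset]
      intro i
      apply floor_mem
      rw [abs_div, abs_mul, abs_of_pos (hy i), abs_of_pos hK0, div_le_iff₀ (hy i)]
      exact mul_le_mul_of_nonneg_left (hT p hp i) hK0.le
    · intro p hp q hq hpq
      by_contra hne
      have h2 : ∀ i, |L (p - q) i| ≤ y i / K := by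
        intro i
        have h3 := abs_sub_lt_of_floor (congrFun hpq i)
        have h4 : K * L p i / y i - K * L q i / y i = K * L (p - q) i / y i := by
          rw [map_sub, Pi.sub_apply]
          ring
        rw [h4, abs_div, abs_mul, abs_of_pos (hy i), abs_of_pos hK0, div_lt_one (hy i)] at h3
        rw [le_div_iff₀ hK0]
        linarith [mul_comm (K : ℝ) |L (p - q) i|]
      have h5 : ∏ i, |L (p - q) i| ≤ ∏ i, (y i / K) :=
        prod_le_prod (fun i _ => abs_nonneg _) fun i _ => h2 i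
      have h6 := hL (p - q) (sub_ne_zero.2 hne)
      rw [prod_div_distrib, prod_const, card_univ, Fintype.card_fin] at h5
      have h7 : (∏ i, y i) / (K : ℝ) ^ d ≤ B / K := by
        have hyp : 0 < ∏ i, y i := prod_pos fun i _ => hy i
        have hKd : (K : ℝ) ≤ (K : ℝ) ^ d := le_self_pow₀ hK1.le hd.ne'
        exact div_le_div₀ (hyp.le.trans hyB) hyB hK0 hKd
      have h8 : B / K < ν := by
        rw [div_lt_iff₀ hK0]
        rw [div_lt_iff₀ hν] at hKB
        linarith
      linarith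
  refine h1.trans ?_
  rw [Fintype.card_piFinset, prod_const, card_univ, Fintype.card_fin, Int.card_Icc]
  apply Nat.pow_le_pow_left
  omega

/-- **The gap principle.** -/
theorem gap {L : G →+ (Fin d → ℝ)} {ν Λ η : ℝ} (hν : 0 < ν) (hL : Nu L ν) (hη : 0 ≤ η)
    {p q p' q' : G} (hp : p ≠ 0) (hq : q ≠ 0) (hp' : p' ≠ 0) (hq' : q' ≠ 0)
    (hpΛ : ∏ i, |L p i| ≤ Λ) (hqΛ : ∏ i, |L q i| ≤ Λ)
    (hs : p + q = p' + q') (hne : p ≠ p')
    (h1 : ∀ i, Real.log |L p' i| ≤ Real.log |L p i| + η)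
    (h2 : ∀ i, Real.log |L q' i| ≤ Real.log |L q i| + η) :
    ∑ i, Real.log (max |L p i| |L q i|) ≤
      d * (Real.log 2 + η) + (2 * Real.log Λ - Real.log ν) := by
  have hexp : 1 ≤ Real.exp η := Real.one_le_exp hη
  have key : ∀ a b : G, a ≠ 0 → b ≠ 0 → (∀ i, Real.log |L b i| ≤ Real.log |L a i| + η) →
      ∀ i, |L (a - b) i| ≤ 2 * Real.exp η * |L a i| := by
    intro a b ha hb h i
    have ha0 := hL.pos hν ha i
    have hb0 := hL.pos hν hb i
    have h3 : |L b i| ≤ Real.exp η * |L a i| := by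
      have h4 := Real.exp_le_exp.2 (h i)
      rw [Real.exp_log hb0, Real.exp_add, Real.exp_log ha0] at h4
      linarith
    rw [map_sub, Pi.sub_apply]
    have h5 := abs_sub (L a i) (L b i)
    nlinarith
  have hz1 := key p p' hp hp' h1
  have hz2 : ∀ i, |L (p - p') i| ≤ 2 * Real.exp η * |L q i| := by
    intro i
    have h3 := key q q' hq hq' h2 i
    have h4 : p - p' = -(q - q') := by
      have : p - p' = q' - q := by
        rw [sub_eq_sub_iff_add_eq_add, hs]
        abel
      rw [this]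
      abel
    rw [h4, map_neg, Pi.neg_apply, abs_neg]
    exact h3
  have hmul : ∀ i, |L (p - p') i| * max |L p i| |L q i| ≤
      (2 * Real.exp η) * (|L p i| * |L q i|) := by
    intro i
    rcases le_total |L p i| |L q i| with h | h
    · rw [max_eq_right h]
      calc |L (p - p') i| * |L q i| ≤ (2 * Real.exp η * |L p i|) * |L q i| :=
            mul_le_mul_of_nonneg_right (hz1 i) (abs_nonneg _)
        _ = _ := by ring
    · rw [max_eq_left h]
      calc |L (p - p') i| * |L p i| ≤ (2 * Real.exp η * |L q i|) * |L p i| :=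
            mul_le_mul_of_nonneg_right (hz2 i) (abs_nonneg _)
        _ = _ := by ring
  have hm0 : ∀ i, 0 < max |L p i| |L q i| := fun i => lt_max_of_lt_left (hL.pos hν hp i)
  have h3 : ν * ∏ i, max |L p i| |L q i| ≤ (2 * Real.exp η) ^ d * (Λ * Λ) := by
    calc ν * ∏ i, max |L p i| |L q i| ≤ (∏ i, |L (p - p') i|) * ∏ i, max |L p i| |L q i| :=
          mul_le_mul_of_nonneg_right (hL _ (sub_ne_zero.2 hne)) (prod_nonneg fun i _ => (hm0 i).le)
      _ = ∏ i, (|L (p - p') i| * max |L p i| |L q i|) := by rw [prod_mul_distrib]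
      _ ≤ ∏ i, ((2 * Real.exp η) * (|L p i| * |L q i|)) :=
          prod_le_prod (fun i _ => mul_nonneg (abs_nonneg _) (hm0 i).le) fun i _ => hmul i
      _ = (2 * Real.exp η) ^ d * ((∏ i, |L p i|) * ∏ i, |L q i|) := by
          rw [prod_mul_distrib, prod_const, card_univ, Fintype.card_fin, prod_mul_distrib]
      _ ≤ (2 * Real.exp η) ^ d * (Λ * Λ) := by
          refine mul_le_mul_of_nonneg_left ?_ (by positivity)
          have hP0 : 0 ≤ ∏ i, |L p i| := prod_nonneg fun i _ => abs_nonneg _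
          have hQ0 : 0 ≤ ∏ i, |L q i| := prod_nonneg fun i _ => abs_nonneg _
          exact mul_le_mul hpΛ hqΛ hQ0 (hP0.trans hpΛ)
  have hΛ : 0 < Λ := hν.trans_le ((hL p hp).trans hpΛ)
  have hprod : 0 < ∏ i, max |L p i| |L q i| := prod_pos fun i _ => hm0 i
  have h4 := Real.log_le_log (mul_pos hν hprod) h3
  rw [Real.log_mul hν.ne' hprod.ne', Real.log_mul (by positivity) (by positivity), Real.log_pow,
    Real.log_mul (by norm_num) (Real.exp_pos _).ne', Real.log_exp, Real.log_mul hΛ.ne' hΛ.ne',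
    Real.log_prod (fun i _ => (hm0 i).ne')] at h4
  linarith

end Pool.Agent.K6.H90.SP
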