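import Mathlib
import Pool.Agent.K6.H90.SP.Box

/-! # Sums of small points: the number of representations -/

set_option autoImplicit false

namespace Pool.Agent.K6.H90.SP

open Finset

variable {G : Type} [AddCommGroup G] {d : ℕ}

/-- the height of the pair `p, v - p` -/
noncomputable def ht (L : G →+ (Fin d → ℝ)) (v p : G) : ℝ :=
  ∑ i, Real.log (max |L p i| |L (v - p) i|)

section

variable {L : G →+ (Fin d → ℝ)} {ν Λ x : ℝ} {v p : G}

lemma log_nonneg_term (hν : 0 < ν) (hL : Nu L ν) (hv : v ≠ 0) (hp : p ≠ 0) (i : Fin d) :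
    0 ≤ Real.log (max |L p i| |L (v - p) i|) - Real.log |L v i| + Real.log 2 := by
  have hv0 := hL.pos hν hv i
  have hm0 : 0 < max |L p i| |L (v - p) i| := lt_max_of_lt_left (hL.pos hν hp i)
  have h1 : |L v i| ≤ 2 * max |L p i| |L (v - p) i| := by
    have h2 : L v i = L p i + L (v - p) i := by
      rw [map_sub, Pi.sub_apply]
      ring
    rw [h2]
    have h3 := abs_add_le (L p i) (L (v - p) i)
    have h4 := le_max_left |L p i| |L (v - p) i|
    have h5 := le_max_right |L p i| |L (v - p) i|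
    linarith
  have h2 := Real.log_le_log hv0 h1
  rw [Real.log_mul (by norm_num) hm0.ne'] at h2
  linarith

lemma sum_log_eq (hν : 0 < ν) (hL : Nu L ν) (hp : p ≠ 0) :
    ∑ i, Real.log |L p i| = Real.log (∏ i, |L p i|) :=
  (Real.log_prod fun i _ => (hL.pos hν hp i).ne').symm

lemma sum_log_ge (hν : 0 < ν) (hL : Nu L ν) (hp : p ≠ 0) :
    Real.log ν ≤ ∑ i, Real.log |L p i| := by
  rw [sum_log_eq hν hL hp]
  exact Real.log_le_log hν (hL p hp)

/-- each term is at most the height -/
lemma term_le (hν : 0 < ν) (hL : Nu L ν) (hv : v ≠ 0) (hp : p ≠ 0) (i : Fin d) :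
    Real.log (max |L p i| |L (v - p) i|) - Real.log |L v i| + Real.log 2 ≤
      ht L v p - ∑ i, Real.log |L v i| + d * Real.log 2 := by
  have h1 := single_le_sum (f := fun i => Real.log (max |L p i| |L (v - p) i|) -
    Real.log |L v i| + Real.log 2) (fun j _ => log_nonneg_term hν hL hv hp j) (mem_univ i)
  simp only [sum_add_distrib, sum_sub_distrib, sum_const, card_univ, Fintype.card_fin,
    nsmul_eq_mul] at h1
  exact h1

lemma ht_ge (hν : 0 < ν) (hL : Nu L ν) (hv : v ≠ 0) (hp : p ≠ 0) :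
    ∑ i, Real.log |L v i| - d * Real.log 2 ≤ ht L v p := by
  have h1 := sum_nonneg (s := univ) (f := fun i => Real.log (max |L p i| |L (v - p) i|) -
    Real.log |L v i| + Real.log 2) (fun j _ => log_nonneg_term hν hL hv hp j)
  simp only [sum_add_distrib, sum_sub_distrib, sum_const, card_univ, Fintype.card_fin,
    nsmul_eq_mul] at h1
  unfold ht
  linarith

lemma ht_le (hν : 0 < ν) (hL : Nu L ν) (hp : Small L Λ x p) (hq : Small L Λ x (v - p)) :
    ht L v p ≤ d * x := by
  have h1 : ∀ i ∈ (univ : Finset (Fin d)), Real.log (max |L p i| |L (v - p) i|) ≤ x := by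
    intro i _
    have hm0 : 0 < max |L p i| |L (v - p) i| := lt_max_of_lt_left (hL.pos hν hp.1 i)
    rw [Real.log_le_iff_le_exp hm0]
    exact max_le (hp.2.2 i) (hq.2.2 i)
  have h2 := sum_le_sum h1
  simp only [sum_const, card_univ, Fintype.card_fin, nsmul_eq_mul] at h2
  exact h2

/-- the coordinates relative to `v` are bounded in terms of the height -/
lemma coord_bound (hd : 0 < d) (hν : 0 < ν) (hL : Nu L ν) (hv : v ≠ 0) (hp : p ≠ 0)
    {q : G} (hq : q ≠ 0) (hq1 : ∀ i, |L q i| ≤ max |L p i| |L (v - p) i|)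
    (hh : 0 ≤ ht L v p) (i : Fin d) :
    |(Real.log |L q i| - Real.log |L v i|)| ≤
      d * ht L v p + (d + 1) * (|Real.log ν| + d * Real.log 2) := by
  have hl2 : 0 ≤ Real.log 2 := Real.log_nonneg (by norm_num)
  have hd1 : (1 : ℝ) ≤ d := by exact_mod_cast hd
  have hlogq : ∀ j, Real.log |L q j| ≤ Real.log (max |L p j| |L (v - p) j|) := fun j =>
    Real.log_le_log (hL.pos hν hq j) (hq1 j)
  have hV := sum_log_ge hν hL hv
  have hVu := ht_ge hν hL hv hp
  have hup : ∀ j, Real.log |L q j| - Real.log |L v j| ≤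
      ht L v p - ∑ i, Real.log |L v i| + d * Real.log 2 := by
    intro j
    have h1 := term_le hν hL hv hp j
    have h2 := hlogq j
    linarith
  set A := ht L v p - ∑ i, Real.log |L v i| + d * Real.log 2 with hA
  have hA0 : 0 ≤ A := by
    rw [hA]
    linarith
  have hAle : A ≤ ht L v p + (|Real.log ν| + d * Real.log 2) := by
    rw [hA]
    have := neg_abs_le (Real.log ν)
    linarith
  have hlow : Real.log ν - ∑ i, Real.log |L v i| - (d - 1) * A ≤
      Real.log |L q i| - Real.log |L v i| := by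
    have h1 : ∑ j, (Real.log |L q j| - Real.log |L v j|) ≥ Real.log ν - ∑ i, Real.log |L v i| := by
      rw [sum_sub_distrib]
      have := sum_log_ge hν hL hq
      linarith
    rw [← add_sum_erase univ _ (mem_univ i)] at h1
    have h2 : ∑ j ∈ univ.erase i, (Real.log |L q j| - Real.log |L v j|) ≤
        ∑ _j ∈ univ.erase i, A := sum_le_sum fun j _ => hup j
    rw [sum_const, card_erase_of_mem (mem_univ i), card_univ, Fintype.card_fin, nsmul_eq_mul,
      Nat.cast_sub hd, Nat.cast_one] at h2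
    linarith
  have hν' := neg_abs_le (Real.log ν)
  have habs := abs_nonneg (Real.log ν)
  set E := |Real.log ν| + d * Real.log 2 with hE
  have hE0 : 0 ≤ E := by positivity
  rw [abs_le]
  constructor
  · have h3 : (d - 1) * A ≤ (d - 1) * (ht L v p + E) :=
      mul_le_mul_of_nonneg_left hAle (by linarith)
    have h4 : ∑ i, Real.log |L v i| ≤ ht L v p + d * Real.log 2 := by linarith
    have h5 : (d - 1) * (ht L v p + E) = d * ht L v p + (d + 1) * E - ht L v p - 2 * E := by ring
    linarith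
  · have h3 := hup i
    have h4 : ht L v p ≤ d * ht L v p := le_mul_of_one_le_left hh hd1
    have h5 : E ≤ (d + 1) * E := le_mul_of_one_le_left hE0 (by linarith)
    linarith

end

/-- the constant of the gap principle -/
noncomputable def C0 (d : ℕ) (ν Λ : ℝ) : ℝ :=
  1 + d * Real.log 2 + |2 * Real.log Λ - Real.log ν| +
    (d + 1) * (|Real.log ν| + d * Real.log 2)

lemma C0_ge (d : ℕ) (ν Λ : ℝ) : 1 ≤ C0 d ν Λ := by
  unfold C0
  have hl2 : 0 ≤ Real.log 2 := Real.log_nonneg (by norm_num)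
  have := abs_nonneg (2 * Real.log Λ - Real.log ν)
  have := abs_nonneg (Real.log ν)
  have h1 : 0 ≤ (d : ℝ) * Real.log 2 := by positivity
  have h2 : 0 ≤ ((d : ℝ) + 1) * (|Real.log ν| + d * Real.log 2) := by positivity
  linarith

/-- **one shell contains boundedly many representations** -/
theorem shell (hd : 0 < d) {ν Λ x : ℝ} (hν : 0 < ν) {L : G →+ (Fin d → ℝ)} (hL : Nu L ν)
    {v : G} (hv : v ≠ 0) {H : ℝ} (hH : 2 * C0 d ν Λ ≤ H) (R : Finset G)
    (hR : ∀ p ∈ R, Small L Λ x p ∧ Small L Λ x (v - p) ∧ H ≤ ht L v p ∧ ht L v p < 2 * H) :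
    R.card ≤ ((2 * (4 * d * (2 * d + 1)) + 1) ^ d) ^ 2 := by
  classical
  have hC := C0_ge d ν Λ
  have hH0 : 0 < H := by linarith
  have hd1 : (1 : ℝ) ≤ d := by exact_mod_cast hd
  have hd0 : (0 : ℝ) < d := by linarith
  set η := H / (4 * d) with hη
  have hη0 : 0 < η := by positivity
  set K : ℕ := 4 * d * (2 * d + 1) with hK
  have hl2 : 0 ≤ Real.log 2 := Real.log_nonneg (by norm_num)
  have hCsplit : (d + 1) * (|Real.log ν| + d * Real.log 2) ≤ C0 d ν Λ := by
    unfold C0
    have := abs_nonneg (2 * Real.log Λ - Real.log ν)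
    have h1 : 0 ≤ (d : ℝ) * Real.log 2 := by positivity
    linarith
  have hCsplit2 : 1 + d * Real.log 2 + |2 * Real.log Λ - Real.log ν| ≤ C0 d ν Λ := by
    unfold C0
    have := abs_nonneg (Real.log ν)
    have h2 : 0 ≤ ((d : ℝ) + 1) * (|Real.log ν| + d * Real.log 2) := by positivity
    linarith
  have hbd : ∀ p ∈ R, ∀ q : G, q ≠ 0 → (∀ i, |L q i| ≤ max |L p i| |L (v - p) i|) → ∀ i,
      ⌊(Real.log |L q i| - Real.log |L v i|) / η⌋ ∈ Finset.Icc (-(K : ℤ)) K := by
    intro p hp q hq hq1 i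
    obtain ⟨h1, h2, h3, h4⟩ := hR p hp
    apply floor_mem
    rw [abs_div, abs_of_pos hη0, div_le_iff₀ hη0]
    refine (coord_bound hd hν hL hv h1.1 hq hq1 (hH0.le.trans h3) i).trans ?_
    have h5 : (K : ℝ) * η = (2 * d + 1) * H := by
      rw [hK, hη]
      push_cast
      field_simp
    rw [h5]
    have h6 : d * ht L v p ≤ d * (2 * H) := mul_le_mul_of_nonneg_left h4.le hd0.le
    linarith
  set B := (Fintype.piFinset fun _ : Fin d => Finset.Icc (-(K : ℤ)) K) with hB
  have hBcard : B.card = (2 * K + 1) ^ d := by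
    rw [hB, Fintype.card_piFinset, prod_const, card_univ, Fintype.card_fin, Int.card_Icc]
    congr 1
    omega
  have hcard : R.card ≤ (B ×ˢ B).card := by
    refine Finset.card_le_card_of_injOn (fun p => ((fun i => ⌊(Real.log |L p i| -
      Real.log |L v i|) / η⌋), (fun i => ⌊(Real.log |L (v - p) i| - Real.log |L v i|) / η⌋)))
      ?_ ?_
    · intro p hp
      have hp' := Finset.mem_coe.1 hp
      obtain ⟨h1, h2, h3, h4⟩ := hR p hp'
      rw [Finset.mem_coe, Finset.mem_product]
      constructor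
      · rw [hB, Fintype.mem_piFinset]
        exact fun i => hbd p hp' p h1.1 (fun j => le_max_left _ _) i
      · rw [hB, Fintype.mem_piFinset]
        exact fun i => hbd p hp' (v - p) h2.1 (fun j => le_max_right _ _) i
    · intro p hp q hq hpq
      by_contra hne
      obtain ⟨h1, h2, h3, h4⟩ := hR p hp
      obtain ⟨k1, k2, k3, k4⟩ := hR q hq
      have e1 := fun i => congrFun (congrArg Prod.fst hpq) i
      have e2 := fun i => congrFun (congrArg Prod.snd hpq) i
      simp only at e1 e2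
      have near : ∀ a b c : ℝ, ⌊(a - c) / η⌋ = ⌊(b - c) / η⌋ → b ≤ a + η := by
        intro a b c h
        have h5 := abs_sub_lt_of_floor h
        have h6 : (a - c) / η - (b - c) / η = (a - b) / η := by ring
        rw [h6, abs_div, abs_of_pos hη0, div_lt_one hη0] at h5
        have := (abs_lt.1 h5).1
        linarith
      have h5 := gap hν hL hη0.le h1.1 h2.1 k1.1 k2.1 h1.2.1 h2.2.1
        (by abel : p + (v - p) = q + (v - q)) hne
        (fun i => near _ _ _ (e1 i)) (fun i => near _ _ _ (e2 i))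
      have h6 : ht L v p ≤ d * (Real.log 2 + η) + (2 * Real.log Λ - Real.log ν) := h5
      have h7 : (d : ℝ) * η = H / 4 := by
        rw [hη]
        field_simp
      have h8 := le_abs_self (2 * Real.log Λ - Real.log ν)
      have h9 : (d : ℝ) * (Real.log 2 + η) = d * Real.log 2 + H / 4 := by rw [mul_add, h7]
      linarith
  rw [card_product, hBcard] at hcard
  rw [sq]
  exact hcard

/-- **few representations of small height** -/
theorem low (hd : 0 < d) {ν : ℝ} (Λ H : ℝ) (hν : 0 < ν) :
    ∃ N : ℕ, ∀ (G : Type) [AddCommGroup G] (L : G →+ (Fin d → ℝ)), Nu L ν → ∀ x : ℝ,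
      ∀ v : G, v ≠ 0 → ∀ R : Finset G,
      (∀ p ∈ R, Small L Λ x p ∧ Small L Λ x (v - p) ∧ ht L v p < H) → R.card ≤ N := by
  obtain ⟨N, hN⟩ := box_card (B := Real.exp (d * (H - Real.log ν + d * Real.log 2) +
    (H + d * Real.log 2))) hd hν
  refine ⟨N, fun G _ L hL x v hv R hR => ?_⟩
  rcases R.eq_empty_or_nonempty with h0 | ⟨p₀, hp₀⟩
  · simp [h0]
  set A := H - Real.log ν + d * Real.log 2 with hA
  have hv0 : ∀ i, 0 < |L v i| := hL.pos hν hv
  refine hN G L hL (fun i => Real.exp A * |L v i|) (fun i => mul_pos (Real.exp_pos _) (hv0 i))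
    ?_ R ?_
  · rw [prod_mul_distrib, prod_const, card_univ, Fintype.card_fin, ← Real.exp_nat_mul,
      Real.exp_add]
    refine mul_le_mul_of_nonneg_left ?_ (Real.exp_pos _).le
    have hprod : 0 < ∏ i, |L v i| := prod_pos fun i _ => hv0 i
    rw [← Real.log_le_iff_le_exp hprod, ← sum_log_eq hν hL hv]
    obtain ⟨h1, h2, h3⟩ := hR p₀ hp₀
    have := ht_ge hν hL hv h1.1
    linarith
  · intro p hp i
    obtain ⟨h1, h2, h3⟩ := hR p hp
    have h4 := term_le hν hL hv h1.1 i
    have h5 := sum_log_ge hν hL hv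
    have hl2 : 0 ≤ Real.log 2 := Real.log_nonneg (by norm_num)
    have hm0 : 0 < max |L p i| |L (v - p) i| := lt_max_of_lt_left (hL.pos hν h1.1 i)
    refine (le_max_left _ |L (v - p) i|).trans ?_
    rw [← Real.exp_log (hv0 i), ← Real.exp_add, ← Real.log_le_iff_le_exp hm0]
    linarith

end Pool.Agent.K6.H90.SP
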