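import Mathlib
import Pool.Agent.K6.H90.SP.Rep

/-! # Sums of small points: the number of representations, all heights -/

set_option autoImplicit false

namespace Pool.Agent.K6.H90.SP

open Finset

/-- **The number of representations of a point as a sum of two small points.** -/
theorem rep_count {d : ℕ} (hd : 0 < d) {ν : ℝ} (Λ : ℝ) (hν : 0 < ν) :
    ∃ C : ℝ, 0 < C ∧ ∀ (G : Type) [AddCommGroup G] (L : G →+ (Fin d → ℝ)), Nu L ν →
      ∀ x : ℝ, 1 ≤ x → ∀ v : G, v ≠ 0 → ∀ R : Finset G,
      (∀ p ∈ R, Small L Λ x p ∧ Small L Λ x (v - p)) →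
      (R.card : ℝ) ≤ C * (1 + max 0 (Real.log (x / max 1 (Real.log (∏ i, |L v i|))))) := by
  classical
  set H0 := 2 * C0 d ν Λ with hH0
  have hC0 := C0_ge d ν Λ
  obtain ⟨N0, hN0⟩ := low hd Λ H0 hν
  set N1 : ℕ := ((2 * (4 * d * (2 * d + 1)) + 1) ^ d) ^ 2 with hN1
  have hd1 : (1 : ℝ) ≤ d := by exact_mod_cast hd
  have hl2 : 0 < Real.log 2 := Real.log_pos (by norm_num)
  have hl2d : 0 ≤ Real.log (2 * d) := Real.log_nonneg (by linarith)
  refine ⟨N0 + N1 * (1 + Real.log (2 * d) / Real.log 2 + 1 / Real.log 2) + 1, by positivity,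
    fun G _ L hL x hx v hv R hR => ?_⟩
  set V := ∑ i, Real.log |L v i| with hV
  have hVlog : Real.log (∏ i, |L v i|) = V := (sum_log_eq hν hL hv).symm
  rw [hVlog]
  set M := max 1 V with hM
  set W := max 0 (Real.log (x / M)) with hW
  have hM1 : 1 ≤ M := le_max_left _ _
  have hW0 : 0 ≤ W := le_max_left _ _
  set Hv := max H0 (V - d * Real.log 2) with hHv
  have hH0v : H0 ≤ Hv := le_max_left _ _
  have hHv0 : 0 < Hv := by linarith
  have hH0d : 2 + 2 * (d * Real.log 2) ≤ H0 := by
    rw [hH0]
    unfold C0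
    have h1 := abs_nonneg (2 * Real.log Λ - Real.log ν)
    have h2 : 0 ≤ ((d : ℝ) + 1) * (|Real.log ν| + d * Real.log 2) := by positivity
    linarith
  have hdl : 0 ≤ (d : ℝ) * Real.log 2 := by positivity
  have hMHv : M ≤ 2 * Hv := by
    refine max_le (by linarith) ?_
    have : V - d * Real.log 2 ≤ Hv := le_max_right _ _
    linarith
  have hlow : ((R.filter fun p => ht L v p < Hv).card : ℝ) ≤ N0 := by
    rcases le_total (V - d * Real.log 2) H0 with h | h
    · have h1 : Hv = H0 := max_eq_left h
      have h2 := hN0 G L hL x v hv (R.filter fun p => ht L v p < Hv) (by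
        intro p hp
        rw [mem_filter, h1] at hp
        exact ⟨(hR p hp.1).1, (hR p hp.1).2, hp.2⟩)
      exact_mod_cast h2
    · have h1 : Hv = V - d * Real.log 2 := max_eq_right h
      have h2 : R.filter (fun p => ht L v p < Hv) = ∅ := by
        rw [filter_eq_empty_iff]
        intro p hp hlt
        have := ht_ge hν hL hv (hR p hp).1.1
        linarith
      rw [h2]
      simp
  have hhigh : ((R.filter fun p => ¬ ht L v p < Hv).card : ℝ) ≤
      N1 * (1 + Real.log (2 * d) / Real.log 2 + W / Real.log 2) := by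
    have hRHS : 0 ≤ (N1 : ℝ) * (1 + Real.log (2 * d) / Real.log 2 + W / Real.log 2) := by
      positivity
    rcases lt_or_ge (d * x) Hv with hdx | hdx
    · have h2 : R.filter (fun p => ¬ ht L v p < Hv) = ∅ := by
        rw [filter_eq_empty_iff]
        intro p hp hlt
        apply hlt
        exact (ht_le hν hL (hR p hp).1 (hR p hp).2).trans_lt hdx
      rw [h2]
      simpa using hRHS
    set K' := Nat.log 2 ⌊d * x / Hv⌋₊ with hK'
    have hfloor1 : 1 ≤ ⌊d * x / Hv⌋₊ := by
      rw [Nat.one_le_floor_iff]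
      rwa [one_le_div hHv0]
    have hcard := Finset.card_le_mul_card_image (s := R.filter fun p => ¬ ht L v p < Hv)
      (f := fun p => Nat.log 2 ⌊ht L v p / Hv⌋₊) N1 (by
        intro k _
        refine shell (x := x) (Λ := Λ) (H := 2 ^ k * Hv) hd hν hL hv ?_ _ ?_
        · have : (1 : ℝ) ≤ 2 ^ k := one_le_pow₀ (by norm_num)
          calc 2 * C0 d ν Λ ≤ Hv := hH0v
            _ ≤ 2 ^ k * Hv := le_mul_of_one_le_left hHv0.le this
        · intro p hp
          rw [mem_filter, mem_filter] at hp
          obtain ⟨⟨hpR, hpH⟩, hpk⟩ := hp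
          have hpH' : 1 ≤ ht L v p / Hv := by
            rw [one_le_div hHv0]
            exact not_lt.1 hpH
          have hfl : ⌊ht L v p / Hv⌋₊ ≠ 0 := by
            have := Nat.one_le_floor_iff (ht L v p / Hv) |>.2 hpH'
            omega
          have h1 : 2 ^ k ≤ ⌊ht L v p / Hv⌋₊ := by
            rw [← hpk]
            exact Nat.pow_log_le_self 2 hfl
          have h2 : ⌊ht L v p / Hv⌋₊ < 2 ^ (k + 1) := by
            rw [← hpk]
            exact Nat.lt_pow_succ_log_self (by norm_num) _
          have h3 : (2 : ℝ) ^ k ≤ ht L v p / Hv := by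
            have := (Nat.le_floor_iff (by linarith)).1 h1
            push_cast at this
            exact this
          have h4 : ht L v p / Hv < 2 ^ (k + 1) := by
            have := (Nat.floor_lt (by linarith)).1 h2
            push_cast at this
            exact this
          refine ⟨(hR p hpR).1, (hR p hpR).2, ?_, ?_⟩
          · exact (le_div_iff₀ hHv0).1 h3
          · rw [div_lt_iff₀ hHv0, pow_succ] at h4
            linarith)
    have himg : ((R.filter fun p => ¬ ht L v p < Hv).image
        (fun p => Nat.log 2 ⌊ht L v p / Hv⌋₊)).card ≤ K' + 1 := by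
      have h1 : (R.filter fun p => ¬ ht L v p < Hv).image
          (fun p => Nat.log 2 ⌊ht L v p / Hv⌋₊) ⊆ range (K' + 1) := by
        intro k hk
        rw [mem_image] at hk
        obtain ⟨p, hp, rfl⟩ := hk
        rw [mem_filter] at hp
        rw [mem_range, Nat.lt_succ_iff]
        apply Nat.log_mono_right
        apply Nat.floor_le_floor
        exact div_le_div_of_nonneg_right (ht_le hν hL (hR p hp.1).1 (hR p hp.1).2) hHv0.le
      calc _ ≤ (range (K' + 1)).card := card_le_card h1
        _ = K' + 1 := card_range _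
    have hK'le : (K' : ℝ) ≤ Real.log (2 * d) / Real.log 2 + W / Real.log 2 := by
      have h1 : 2 ^ K' ≤ ⌊d * x / Hv⌋₊ := Nat.pow_log_le_self 2 (by omega)
      have h2 : (2 : ℝ) ^ K' ≤ d * x / Hv := by
        have := (Nat.le_floor_iff (by positivity)).1 h1
        push_cast at this
        exact this
      have h3 : d * x / Hv ≤ 2 * d * (x / M) := by
        rw [div_le_iff₀ hHv0]
        have h4 : 2 * d * (x / M) * Hv = (d * x) * (2 * Hv / M) := by
          field_simp
        rw [h4]
        apply le_mul_of_one_le_right (by positivity)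
        rw [one_le_div (by linarith)]
        exact hMHv
      have hxM : 0 < x / M := by positivity
      have h5 := Real.log_le_log (by positivity) (h2.trans h3)
      rw [Real.log_pow, Real.log_mul (by positivity) hxM.ne'] at h5
      have h6 : Real.log (x / M) ≤ W := le_max_right _ _
      rw [← add_div, le_div_iff₀ hl2]
      linarith
    have hcard' : ((R.filter fun p => ¬ ht L v p < Hv).card : ℝ) ≤ N1 * (K' + 1) := by
      have h1 := hcard.trans (Nat.mul_le_mul_left N1 himg)
      exact_mod_cast h1
    refine hcard'.trans ?_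
    apply mul_le_mul_of_nonneg_left _ (Nat.cast_nonneg _)
    linarith
  have hsum := Finset.card_filter_add_card_filter_not (s := R) (fun p => ht L v p < Hv)
  have hsum' : (R.card : ℝ) = ((R.filter fun p => ht L v p < Hv).card : ℝ) +
      ((R.filter fun p => ¬ ht L v p < Hv).card : ℝ) := by
    exact_mod_cast hsum.symm
  rw [hsum']
  have hN0' : (0 : ℝ) ≤ N0 := Nat.cast_nonneg _
  have hN1' : (0 : ℝ) ≤ N1 := Nat.cast_nonneg _
  have e1 : (N0 : ℝ) ≤ N0 * (1 + W) := le_mul_of_one_le_right hN0' (by linarith)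
  have hq : 0 ≤ Real.log (2 * d) / Real.log 2 := by positivity
  have hr : 0 ≤ 1 / Real.log 2 := by positivity
  have e2 : 1 + Real.log (2 * d) / Real.log 2 + W / Real.log 2 ≤
      (1 + Real.log (2 * d) / Real.log 2 + 1 / Real.log 2) * (1 + W) := by
    have : W / Real.log 2 = (1 / Real.log 2) * W := by ring
    rw [this]
    nlinarith [mul_nonneg hq hW0, mul_nonneg hr hW0]
  have e3 := mul_le_mul_of_nonneg_left e2 hN1'
  have e4 : (N1 : ℝ) * ((1 + Real.log (2 * d) / Real.log 2 + 1 / Real.log 2) * (1 + W)) =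
    N1 * (1 + Real.log (2 * d) / Real.log 2 + 1 / Real.log 2) * (1 + W) := by ring
  rw [e4] at e3
  calc ((R.filter fun p => ht L v p < Hv).card : ℝ) +
      ((R.filter fun p => ¬ ht L v p < Hv).card : ℝ) ≤ N0 * (1 + W) +
      N1 * (1 + Real.log (2 * d) / Real.log 2 + 1 / Real.log 2) * (1 + W) := by linarith
    _ ≤ _ := by nlinarith

end Pool.Agent.K6.H90.SP
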