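import Mathlib
import Pool.Agent.K6.H90.SP.Rep

/-! # Sums of small points: counting small points in a strip -/

set_option autoImplicit false

namespace Pool.Agent.K6.H90.SP

open Finset

lemma log_le_x {G : Type} [AddCommGroup G] {d : ℕ} {ν Λ x : ℝ} (hν : 0 < ν)
    {L : G →+ (Fin d → ℝ)} (hL : Nu L ν) {q : G} (hq : Small L Λ x q) (i : Fin d) :
    Real.log |L q i| ≤ x := by
  rw [Real.log_le_iff_le_exp (hL.pos hν hq.1 i)]
  exact hq.2.2 i

lemma log_ge_x {G : Type} [AddCommGroup G] {d : ℕ} (hd : 0 < d) {ν Λ x : ℝ} (hν : 0 < ν)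
    (hx : 1 ≤ x) {L : G →+ (Fin d → ℝ)} (hL : Nu L ν) {q : G} (hq : Small L Λ x q) (i : Fin d) :
    -((|Real.log ν| + d) * x) ≤ Real.log |L q i| := by
  have h1 := sum_log_ge hν hL hq.1
  rw [← add_sum_erase univ _ (mem_univ i)] at h1
  have h2 : ∑ j ∈ univ.erase i, Real.log |L q j| ≤ ∑ _j ∈ univ.erase i, x :=
    sum_le_sum fun j _ => log_le_x hν hL hq j
  rw [sum_const, card_erase_of_mem (mem_univ i), card_univ, Fintype.card_fin, nsmul_eq_mul,
    Nat.cast_sub hd, Nat.cast_one] at h2
  have h3 := neg_abs_le (Real.log ν)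
  have h4 : |Real.log ν| ≤ |Real.log ν| * x := le_mul_of_one_le_right (abs_nonneg _) hx
  nlinarith

/-- **Small points in a strip.** -/
theorem strip {d : ℕ} (hd : 0 < d) {ν : ℝ} (Λ : ℝ) (hν : 0 < ν) :
    ∃ C : ℝ, 0 < C ∧ ∀ (G : Type) [AddCommGroup G] (L : G →+ (Fin d → ℝ)), Nu L ν →
      ∀ x : ℝ, 1 ≤ x → ∀ I : Finset (Fin d), I.card < d → ∀ c : Fin d → ℝ, ∀ T : Finset G,
      (∀ q ∈ T, Small L Λ x q ∧ ∀ i ∈ I, |Real.log |L q i| - c i| ≤ Real.log 3) →
      (T.card : ℝ) ≤ C * x ^ (d - 1 - I.card) := by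
  classical
  obtain ⟨N, hN⟩ := box_card (B := max Λ 1 * Real.exp d) hd hν
  set A : ℝ := |Real.log ν| + d + 5 with hA
  have hA5 : 5 ≤ A := by
    rw [hA]
    have := abs_nonneg (Real.log ν)
    have : (0 : ℝ) ≤ d := Nat.cast_nonneg _
    linarith
  refine ⟨(N + 1) * A ^ d, by positivity, fun G _ L hL x hx I hI c T hT => ?_⟩
  obtain ⟨j0, hj0⟩ : ∃ j0, j0 ∉ I := by
    by_contra h
    push Not at h
    have : I = univ := eq_univ_of_forall h
    rw [this, card_univ, Fintype.card_fin] at hI
    exact lt_irrefl _ hI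
  set J : Fin d → Finset ℤ := fun i => if i = j0 then {0} else
    if i ∈ I then Finset.Icc ⌊c i - Real.log 3⌋ ⌊c i + Real.log 3⌋ else
      Finset.Icc ⌊-((|Real.log ν| + d) * x)⌋ ⌊x⌋ with hJ
  set f : G → Fin d → ℤ := fun q i => if i = j0 then 0 else ⌊Real.log |L q i|⌋ with hf
  have hfib : ∀ n ∈ T.image f, (T.filter fun q => f q = n).card ≤ N := by
    intro n _
    refine hN G L hL (fun i => if i = j0 then max Λ 1 *
      Real.exp (-∑ j ∈ univ.erase j0, (n j : ℝ)) else Real.exp (n i + 1)) ?_ ?_ _ ?_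
    · intro i
      have : (0 : ℝ) < max Λ 1 := lt_max_of_lt_right one_pos
      split_ifs <;> positivity
    · rw [← mul_prod_erase univ _ (mem_univ j0)]
      have h1 : ∏ i ∈ univ.erase j0, (if i = j0 then max Λ 1 *
          Real.exp (-∑ j ∈ univ.erase j0, (n j : ℝ)) else Real.exp (n i + 1)) =
          ∏ i ∈ univ.erase j0, Real.exp (n i + 1) :=
        prod_congr rfl fun i hi => by rw [if_neg (ne_of_mem_erase hi)]
      rw [h1, if_pos rfl, ← Real.exp_sum, sum_add_distrib, mul_assoc, ← Real.exp_add]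
      refine mul_le_mul_of_nonneg_left ?_ (le_trans zero_le_one (le_max_right _ _))
      apply Real.exp_le_exp.2
      rw [sum_const, card_erase_of_mem (mem_univ j0), card_univ, Fintype.card_fin,
        nsmul_eq_mul, Nat.cast_sub hd, Nat.cast_one]
      linarith
    · intro q hq i
      rw [mem_filter] at hq
      obtain ⟨hqT, hqn⟩ := hq
      obtain ⟨hqs, _⟩ := hT q hqT
      have hpos := hL.pos hν hqs.1
      have hni : ∀ i, i ≠ j0 → ⌊Real.log |L q i|⌋ = n i := by
        intro i hi
        have := congrFun hqn i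
        rw [hf] at this
        simpa [hi] using this
      by_cases hi : i = j0
      · simp only [hi, if_true]
        have h1 := mul_prod_erase univ (fun i => |L q i|) (mem_univ j0)
        have h2 : Real.exp (∑ j ∈ univ.erase j0, (n j : ℝ)) ≤
            ∏ i ∈ univ.erase j0, |L q i| := by
          rw [Real.exp_sum]
          refine prod_le_prod (fun i _ => (Real.exp_pos _).le) fun i hi => ?_
          rw [← Real.le_log_iff_exp_le (hpos i), ← hni i (ne_of_mem_erase hi)]
          exact Int.floor_le _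
        rw [Real.exp_neg, ← div_eq_mul_inv, le_div_iff₀ (Real.exp_pos _)]
        calc |L q j0| * Real.exp (∑ j ∈ univ.erase j0, (n j : ℝ)) ≤
            |L q j0| * ∏ i ∈ univ.erase j0, |L q i| :=
              mul_le_mul_of_nonneg_left h2 (abs_nonneg _)
          _ = ∏ i, |L q i| := h1
          _ ≤ Λ := hqs.2.1
          _ ≤ max Λ 1 := le_max_left _ _
      · simp only [hi, if_false]
        rw [← Real.log_le_iff_le_exp (hpos i), ← hni i hi]
        exact (Int.lt_floor_add_one _).le
  have hcard := Finset.card_le_mul_card_image (s := T) (f := f) N hfib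
  have himg : T.image f ⊆ Fintype.piFinset J := by
    intro n hn
    rw [mem_image] at hn
    obtain ⟨q, hq, rfl⟩ := hn
    obtain ⟨hqs, hqc⟩ := hT q hq
    rw [Fintype.mem_piFinset]
    intro i
    simp only [hJ, hf]
    by_cases hi : i = j0
    · simp [hi]
    · simp only [hi, if_false]
      by_cases hiI : i ∈ I
      · simp only [hiI, if_true]
        have h1 := abs_le.1 (hqc i hiI)
        rw [Finset.mem_Icc]
        exact ⟨Int.floor_le_floor (by linarith), Int.floor_le_floor (by linarith)⟩
      · simp only [hiI, if_false]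
        rw [Finset.mem_Icc]
        exact ⟨Int.floor_le_floor (log_ge_x hd hν hx hL hqs i),
          Int.floor_le_floor (log_le_x hν hL hqs i)⟩
  have hJcard : ((Fintype.piFinset J).card : ℝ) ≤ A ^ d * x ^ (d - 1 - I.card) := by
    rw [Fintype.card_piFinset]
    push_cast
    have h1 : ∀ i ∈ (univ : Finset (Fin d)), ((J i).card : ℝ) ≤
        A * (if i ∈ insert j0 I then 1 else x) := by
      intro i _
      have hx5 : 1 ≤ x := hx
      simp only [hJ]
      by_cases hi : i = j0
      · simp only [hi, if_true, card_singleton, mem_insert, true_or, Nat.cast_one]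
        linarith
      · simp only [hi, if_false, mem_insert, false_or]
        by_cases hiI : i ∈ I
        · simp only [hiI, if_true, Int.card_Icc]
          have hl3 : Real.log 3 < 1.5 := by
            rw [Real.log_lt_iff_lt_exp (by norm_num)]
            have h2 := Real.quadratic_le_exp_of_nonneg (show (0:ℝ) ≤ 1.5 by norm_num)
            norm_num at h2 ⊢
            linarith
          have h2 : ⌊c i + Real.log 3⌋ + 1 - ⌊c i - Real.log 3⌋ ≤ 5 := by
            have h3 : (⌊c i + Real.log 3⌋ : ℝ) ≤ c i + Real.log 3 := Int.floor_le _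
            have h4 := Int.lt_floor_add_one (c i - Real.log 3)
            have h5 : ((⌊c i + Real.log 3⌋ + 1 - ⌊c i - Real.log 3⌋ : ℤ) : ℝ) < 6 := by
              push_cast
              linarith
            have h6 : ⌊c i + Real.log 3⌋ + 1 - ⌊c i - Real.log 3⌋ < 6 := by exact_mod_cast h5
            omega
          have h3 : (⌊c i + Real.log 3⌋ + 1 - ⌊c i - Real.log 3⌋).toNat ≤ 5 := by omega
          have h4 : (((⌊c i + Real.log 3⌋ + 1 - ⌊c i - Real.log 3⌋).toNat : ℕ) : ℝ) ≤ 5 := by
            exact_mod_cast h3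
          linarith
        · simp only [hiI, if_false, Int.card_Icc]
          set E := (|Real.log ν| + d) * x with hE
          have hE0 : 0 ≤ E := by positivity
          have h2 : (0 : ℤ) ≤ ⌊x⌋ + 1 - ⌊-E⌋ := by
            have : ⌊-E⌋ ≤ ⌊x⌋ := Int.floor_le_floor (by linarith)
            omega
          have h3 : (((⌊x⌋ + 1 - ⌊-E⌋).toNat : ℕ) : ℝ) = ((⌊x⌋ + 1 - ⌊-E⌋ : ℤ) : ℝ) := by
            rw [← Int.cast_natCast, Int.toNat_of_nonneg h2]
          rw [h3]
          push_cast
          have h4 : (⌊x⌋ : ℝ) ≤ x := Int.floor_le _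
          have h5 := Int.lt_floor_add_one (-E)
          have h6 : A * x = E + 5 * x := by
            rw [hA, hE]
            ring
          linarith
    refine (prod_le_prod (fun i _ => Nat.cast_nonneg _) h1).trans ?_
    rw [prod_mul_distrib, prod_const, card_univ, Fintype.card_fin, prod_ite, prod_const_one,
      one_mul, prod_const]
    have h2 : (univ.filter fun i => i ∉ insert j0 I).card = d - 1 - I.card := by
      have h3 : (univ.filter fun i => i ∉ insert j0 I) = (insert j0 I)ᶜ := by
        ext i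
        simp
      rw [h3, card_compl, Fintype.card_fin, card_insert_of_notMem hj0]
      omega
    rw [h2]
  have h5 : (T.card : ℝ) ≤ N * (Fintype.piFinset J).card := by
    have := hcard.trans (Nat.mul_le_mul_left N (card_le_card himg))
    exact_mod_cast this
  have hxp : 0 ≤ A ^ d * x ^ (d - 1 - I.card) := by positivity
  calc (T.card : ℝ) ≤ N * (Fintype.piFinset J).card := h5
    _ ≤ N * (A ^ d * x ^ (d - 1 - I.card)) := mul_le_mul_of_nonneg_left hJcard (Nat.cast_nonneg _)
    _ ≤ (N + 1) * (A ^ d * x ^ (d - 1 - I.card)) := by nlinarith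
    _ = (N + 1) * A ^ d * x ^ (d - 1 - I.card) := by ring

end Pool.Agent.K6.H90.SP
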