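import Mathlib
import Pool.Agent.K6.H90.SP.Count
import Pool.Agent.K6.H90.SP.Strip

/-! # Sums of small points: additive quadruples -/

set_option autoImplicit false

namespace Pool.Agent.K6.H90.SP

open Finset

/-- the index pairs -/
abbrev Prs : Type := {e : Fin 4 × Fin 4 // e.1 < e.2}

lemma card_Prs : Fintype.card Prs = 6 := by decide

/-- two of four numbers with sum zero are nearly the largest ones -/
lemma exists_pair (a : Fin 4 → ℝ) (h0 : ∀ k, 0 < |a k|) (hs : ∑ k, a k = 0) :
    ∃ e : Prs, |Real.log |a e.1.1| - Real.log |a e.1.2| - 0| ≤ Real.log 3 := by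
  obtain ⟨j, hj⟩ := Finite.exists_max fun k => |a k|
  obtain ⟨k, hk, hkmax⟩ := Finset.exists_max_image (univ.erase j) (fun k => |a k|)
    (by
      rw [← card_pos, card_erase_of_mem (mem_univ j), card_univ, Fintype.card_fin]
      norm_num)
  have hjk : j ≠ k := (ne_of_mem_erase hk).symm
  have h1 : |a j| ≤ 3 * |a k| := by
    rw [← add_sum_erase univ _ (mem_univ j)] at hs
    have h2 : a j = -∑ k ∈ univ.erase j, a k := by linarith
    rw [h2, abs_neg]
    refine (abs_sum_le_sum_abs _ _).trans ?_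
    have h3 : ∑ i ∈ univ.erase j, |a i| ≤ ∑ _i ∈ univ.erase j, |a k| :=
      sum_le_sum fun i hi => hkmax i hi
    rw [sum_const, card_erase_of_mem (mem_univ j), card_univ, Fintype.card_fin,
      nsmul_eq_mul] at h3
    have h4 : ((4 - 1 : ℕ) : ℝ) = 3 := by norm_num
    rw [h4] at h3
    exact h3
  have h2 : 0 ≤ Real.log |a j| - Real.log |a k| :=
    sub_nonneg.2 (Real.log_le_log (h0 k) (hj k))
  have h3 : Real.log |a j| - Real.log |a k| ≤ Real.log 3 := by
    have := Real.log_le_log (h0 j) h1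
    rw [Real.log_mul (by norm_num) (h0 k).ne'] at this
    linarith
  rcases lt_or_gt_of_ne hjk with h | h
  · refine ⟨⟨(j, k), h⟩, ?_⟩
    rw [sub_zero, abs_of_nonneg h2]
    exact h3
  · refine ⟨⟨(k, j), h⟩, ?_⟩
    rw [sub_zero, abs_sub_comm, abs_of_nonneg h2]
    exact h3

/-- the other two indices -/
lemma exists_others : ∀ e : Prs, ∃ l m : Fin 4, l ≠ m ∧ e.1.1 ≠ l ∧ e.1.2 ≠ l ∧ e.1.1 ≠ m ∧
    e.1.2 ≠ m ∧ (univ : Finset (Fin 4)) = {e.1.1, e.1.2, l, m} := by
  decide

/-- the pairs of small points with nearly the same coordinates in `k` places -/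
theorem pairs_count {d : ℕ} (hd : 0 < d) {ν : ℝ} (Λ : ℝ) (hν : 0 < ν) :
    ∃ C : ℝ, 0 < C ∧ ∀ (G : Type) [AddCommGroup G] (L : G →+ (Fin d → ℝ)), Nu L ν →
      ∀ x : ℝ, 1 ≤ x → ∀ k : ℕ, k < d → ∀ T : Finset (G × G),
      (∀ q ∈ T, Small L Λ x q.1 ∧ Small L Λ x q.2 ∧ ∃ I : Finset (Fin d), I.card = k ∧
        ∀ i ∈ I, |Real.log |L q.1 i| - Real.log |L q.2 i| - 0| ≤ Real.log 3) →
      (T.card : ℝ) ≤ C * x ^ (2 * (d - 1) - k) := by
  classical
  obtain ⟨C, hC, hstrip⟩ := strip hd Λ hν
  refine ⟨C * (C * 2 ^ d), by positivity, fun G _ L hL x hx k hk T hT => ?_⟩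
  -- the second points
  have h1 : ((T.image Prod.snd).card : ℝ) ≤ C * x ^ (d - 1) := by
    have := hstrip G L hL x hx ∅ (by simpa using hd) 0 (T.image Prod.snd) (by
      intro q hq
      rw [mem_image] at hq
      obtain ⟨r, hr, rfl⟩ := hq
      exact ⟨(hT r hr).2.1, by simp⟩)
    simpa using this
  have h2 : ∀ b ∈ T.image Prod.snd, ((T.filter fun q => q.2 = b).card : ℝ) ≤
      C * 2 ^ d * x ^ (d - 1 - k) := by
    intro b _
    set P := powersetCard k (univ : Finset (Fin d)) with hP
    set S : Finset (Fin d) → Finset G := fun I => (T.image Prod.fst).filter fun p =>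
      Small L Λ x p ∧ ∀ i ∈ I, |(Real.log |L p i| - Real.log |L b i|)| ≤ Real.log 3 with hS
    have h3 : ((T.filter fun q => q.2 = b).image Prod.fst) ⊆ P.biUnion S := by
      intro p hp
      rw [mem_image] at hp
      obtain ⟨q, hq, rfl⟩ := hp
      rw [mem_filter] at hq
      obtain ⟨hqT, rfl⟩ := hq
      obtain ⟨h5, h6, I, hI, h7⟩ := hT q hqT
      rw [mem_biUnion]
      refine ⟨I, ?_, ?_⟩
      · rw [hP, mem_powersetCard]
        exact ⟨subset_univ _, hI⟩
      · rw [hS, mem_filter]
        refine ⟨mem_image_of_mem _ hqT, h5, fun i hi => ?_⟩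
        have := h7 i hi
        rwa [sub_zero] at this
    have h4 : ((T.filter fun q => q.2 = b).image Prod.fst).card =
        (T.filter fun q => q.2 = b).card := by
      apply card_image_of_injOn
      intro q hq r hr hqr
      have hq' := (mem_filter.1 (mem_coe.1 hq)).2
      have hr' := (mem_filter.1 (mem_coe.1 hr)).2
      exact Prod.ext hqr (hq'.trans hr'.symm)
    have h5 : ((T.filter fun q => q.2 = b).card : ℝ) ≤ ∑ I ∈ P, ((S I).card : ℝ) := by
      rw [← h4]
      have := (card_le_card h3).trans card_biUnion_le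
      exact_mod_cast this
    have h6 : ∀ I ∈ P, ((S I).card : ℝ) ≤ C * x ^ (d - 1 - k) := by
      intro I hI
      rw [hP, mem_powersetCard] at hI
      have := hstrip G L hL x hx I (by omega) (fun i => Real.log |L b i|) (S I) (by
        intro q hq
        rw [hS, mem_filter] at hq
        exact hq.2)
      rwa [hI.2] at this
    have h7 : (P.card : ℝ) ≤ 2 ^ d := by
      have h8 : P.card ≤ 2 ^ d := by
        rw [hP, card_powersetCard, card_univ, Fintype.card_fin]
        exact Nat.choose_le_two_pow d k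
      exact_mod_cast h8
    calc ((T.filter fun q => q.2 = b).card : ℝ) ≤ ∑ I ∈ P, ((S I).card : ℝ) := h5
      _ ≤ ∑ _I ∈ P, C * x ^ (d - 1 - k) := sum_le_sum h6
      _ = P.card * (C * x ^ (d - 1 - k)) := by rw [sum_const, nsmul_eq_mul]
      _ ≤ 2 ^ d * (C * x ^ (d - 1 - k)) :=
          mul_le_mul_of_nonneg_right h7 (by positivity)
      _ = C * 2 ^ d * x ^ (d - 1 - k) := by ring
  have h3 : (T.card : ℝ) = ∑ b ∈ T.image Prod.snd, ((T.filter fun q => q.2 = b).card : ℝ) := by
    have := card_eq_sum_card_image Prod.snd T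
    exact_mod_cast this
  rw [h3]
  calc ∑ b ∈ T.image Prod.snd, ((T.filter fun q => q.2 = b).card : ℝ) ≤
      ∑ _b ∈ T.image Prod.snd, C * 2 ^ d * x ^ (d - 1 - k) := sum_le_sum h2
    _ = (T.image Prod.snd).card * (C * 2 ^ d * x ^ (d - 1 - k)) := by rw [sum_const, nsmul_eq_mul]
    _ ≤ (C * x ^ (d - 1)) * (C * 2 ^ d * x ^ (d - 1 - k)) :=
        mul_le_mul_of_nonneg_right h1 (by positivity)
    _ = C * (C * 2 ^ d) * (x ^ (d - 1) * x ^ (d - 1 - k)) := by ring
    _ = C * (C * 2 ^ d) * x ^ (2 * (d - 1) - k) := by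
        rw [← pow_add]
        congr 2
        omega

/-- **Additive quadruples of small points.** -/
theorem quad_count {d : ℕ} (hd : 2 ≤ d) {ν : ℝ} (Λ : ℝ) (hν : 0 < ν) :
    ∃ C : ℝ, 0 < C ∧ ∀ (G : Type) [AddCommGroup G] (L : G →+ (Fin d → ℝ)), Nu L ν →
      ∀ x : ℝ, 1 ≤ x → ∀ S : Finset (Fin 4 → G),
      (∀ P ∈ S, (∀ k, Small L Λ x (P k)) ∧ ∑ k, P k = 0 ∧ ∀ j k, j ≠ k → P j + P k ≠ 0) →
      (S.card : ℝ) ≤ C * x ^ (2 * (d - 1) - ((d - 1) / 6 + 1)) * (1 + Real.log x) := by
  classical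
  have hd0 : 0 < d := by omega
  obtain ⟨C₁, hC₁, hrep⟩ := rep_count hd0 Λ hν
  obtain ⟨C₂, hC₂, hpairs⟩ := pairs_count hd0 Λ hν
  refine ⟨6 * (C₁ * C₂), by positivity, fun G _ L hL x hx S hS => ?_⟩
  set k := (d - 1) / 6 + 1 with hk
  have hkd : k < d := by omega
  have hlx : 0 ≤ Real.log x := Real.log_nonneg hx
  set Q : Prs → (Fin 4 → G) → Prop := fun e P => ∃ I : Finset (Fin d), I.card = k ∧
    ∀ i ∈ I, |Real.log |L (P e.1.1) i| - Real.log |L (P e.1.2) i| - 0| ≤ Real.log 3 with hQ
  have hcover : S ⊆ (univ : Finset Prs).biUnion fun e => S.filter (Q e) := by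
    intro P hP
    obtain ⟨h1, h2, h3⟩ := hS P hP
    have h4 : ∀ i : Fin d, ∃ e : Prs, |Real.log |L (P e.1.1) i| -
        Real.log |L (P e.1.2) i| - 0| ≤ Real.log 3 := by
      intro i
      refine exists_pair (fun k => L (P k) i) (fun k => hL.pos hν (h1 k).1 i) ?_
      have h5 := congrFun (congrArg L h2) i
      rw [map_sum, map_zero, Finset.sum_apply] at h5
      exact h5
    choose e he using h4
    obtain ⟨e₀, _, he₀⟩ := Finset.exists_lt_card_fiber_of_mul_lt_card_of_maps_to
      (s := (univ : Finset (Fin d))) (t := (univ : Finset Prs)) (f := e) (n := (d - 1) / 6)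
      (fun _ _ => mem_univ _) (by
        rw [card_univ, card_univ, card_Prs, Fintype.card_fin]
        omega)
    obtain ⟨I, hI, hIk⟩ := Finset.exists_subset_card_eq (show k ≤ _ from he₀)
    rw [mem_biUnion]
    refine ⟨e₀, mem_univ _, ?_⟩
    rw [mem_filter]
    refine ⟨hP, I, hIk, fun i hi => ?_⟩
    have h5 := (mem_filter.1 (hI hi)).2
    rw [← h5]
    exact he i
  have hone : ∀ e : Prs, ((S.filter (Q e)).card : ℝ) ≤
      (C₁ * C₂) * x ^ (2 * (d - 1) - k) * (1 + Real.log x) := by
    intro e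
    obtain ⟨l, m, hlm, h1l, h2l, h1m, h2m, huniv⟩ := exists_others e
    have h12 : e.1.1 ≠ e.1.2 := ne_of_lt e.2
    have hsum : ∀ P : Fin 4 → G, ∑ k, P k = P e.1.1 + (P e.1.2 + (P l + P m)) := by
      intro P
      rw [huniv, sum_insert, sum_insert, sum_insert, sum_singleton]
      · simpa using hlm
      · simp only [mem_insert, mem_singleton, not_or]
        exact ⟨h2l, h2m⟩
      · simp only [mem_insert, mem_singleton, not_or]
        exact ⟨h12, h1l, h1m⟩
    set f : (Fin 4 → G) → G × G := fun P => (P e.1.1, P e.1.2) with hf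
    have h1 : (((S.filter (Q e)).image f).card : ℝ) ≤ C₂ * x ^ (2 * (d - 1) - k) := by
      refine hpairs G L hL x hx k hkd _ ?_
      intro q hq
      rw [mem_image] at hq
      obtain ⟨P, hP, rfl⟩ := hq
      rw [mem_filter] at hP
      obtain ⟨h1, h2, h3⟩ := hS P hP.1
      exact ⟨h1 _, h1 _, hP.2⟩
    have h2 : ∀ b ∈ (S.filter (Q e)).image f,
        (((S.filter (Q e)).filter fun P => f P = b).card : ℝ) ≤ C₁ * (1 + Real.log x) := by
      intro b hb
      rw [mem_image] at hb
      obtain ⟨P₀, hP₀, rfl⟩ := hb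
      rw [mem_filter] at hP₀
      obtain ⟨g1, g2, g3⟩ := hS P₀ hP₀.1
      set v : G := -(P₀ e.1.1 + P₀ e.1.2) with hv
      have hv0 : v ≠ 0 := neg_ne_zero.2 (g3 _ _ h12)
      set U := ((S.filter (Q e)).filter fun P => f P = f P₀) with hU
      have hmem : ∀ P ∈ U, P ∈ S ∧ P e.1.1 = P₀ e.1.1 ∧ P e.1.2 = P₀ e.1.2 := by
        intro P hP
        rw [hU, mem_filter, mem_filter] at hP
        exact ⟨hP.1.1, congrArg Prod.fst hP.2, congrArg Prod.snd hP.2⟩
      have hPm : ∀ P ∈ U, P m = v - P l := by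
        intro P hP
        obtain ⟨h3, h4, h5⟩ := hmem P hP
        have h6 := (hS P h3).2.1
        rw [hsum P, h4, h5] at h6
        rw [hv, eq_sub_iff_add_eq, eq_neg_iff_add_eq_zero]
        rw [← h6]
        abel
      have hinj : Set.InjOn (fun P : Fin 4 → G => P l) U := by
        intro P hP P' hP' hPP
        have hP1 := mem_coe.1 hP
        have hP2 := mem_coe.1 hP'
        obtain ⟨_, h4, h5⟩ := hmem P hP1
        obtain ⟨_, h4', h5'⟩ := hmem P' hP2
        have h6 := hPm P hP1
        have h6' := hPm P' hP2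
        have h7 : P l = P' l := hPP
        funext i
        have hi : i ∈ (univ : Finset (Fin 4)) := mem_univ i
        rw [huniv] at hi
        simp only [mem_insert, mem_singleton] at hi
        rcases hi with rfl | rfl | rfl | rfl
        · rw [h4, h4']
        · rw [h5, h5']
        · exact h7
        · rw [h6, h6', h7]
      have h3 : (U.image fun P => P l).card = U.card := card_image_of_injOn hinj
      have h4 := hrep G L hL x hx v hv0 (U.image fun P => P l) (by
        intro p hp
        rw [mem_image] at hp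
        obtain ⟨P, hP, rfl⟩ := hp
        have h5 := (hS P (hmem P hP).1).1
        refine ⟨h5 l, ?_⟩
        rw [← hPm P hP]
        exact h5 m)
      rw [h3] at h4
      refine h4.trans (mul_le_mul_of_nonneg_left ?_ hC₁.le)
      have h5 : max 0 (Real.log (x / max 1 (Real.log (∏ i, |L v i|)))) ≤ Real.log x := by
        refine max_le hlx ?_
        apply Real.log_le_log
        · have : (0 : ℝ) < max 1 (Real.log (∏ i, |L v i|)) := lt_max_of_lt_left one_pos
          positivity
        · exact div_le_self (by linarith) (le_max_left _ _)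
      linarith
    have h3 : ((S.filter (Q e)).card : ℝ) = ∑ b ∈ (S.filter (Q e)).image f,
        (((S.filter (Q e)).filter fun P => f P = b).card : ℝ) := by
      have := card_eq_sum_card_image f (S.filter (Q e))
      exact_mod_cast this
    rw [h3]
    calc ∑ b ∈ (S.filter (Q e)).image f,
        (((S.filter (Q e)).filter fun P => f P = b).card : ℝ) ≤
        ∑ _b ∈ (S.filter (Q e)).image f, C₁ * (1 + Real.log x) := sum_le_sum h2
      _ = ((S.filter (Q e)).image f).card * (C₁ * (1 + Real.log x)) := by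
          rw [sum_const, nsmul_eq_mul]
      _ ≤ (C₂ * x ^ (2 * (d - 1) - k)) * (C₁ * (1 + Real.log x)) :=
          mul_le_mul_of_nonneg_right h1 (by positivity)
      _ = (C₁ * C₂) * x ^ (2 * (d - 1) - k) * (1 + Real.log x) := by ring
  have h1 : (S.card : ℝ) ≤ ∑ e : Prs, ((S.filter (Q e)).card : ℝ) := by
    have := (card_le_card hcover).trans card_biUnion_le
    exact_mod_cast this
  refine h1.trans ((sum_le_sum fun e _ => hone e).trans ?_)
  rw [sum_const, card_univ, card_Prs, nsmul_eq_mul]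
  push_cast
  apply le_of_eq
  ring

end Pool.Agent.K6.H90.SP
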